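import Pool.Agent.Helper36.SPR.St

set_option autoImplicit false

namespace Pool.Agent.Helper98.SPR

open Finset
open Pool.Agent.Helper36.SPR

/-- the additive character modulo `m n` at a multiple of `n` -/
theorem addChar_mul (m n k l : ℕ) [NeZero m] [NeZero l] (hl : l = m * n) :
    (ZMod.stdAddChar ((n * k : ℕ) : ZMod l) : ℂ) = ZMod.stdAddChar ((k : ℕ) : ZMod m) := by
  have h1 : (ZMod.stdAddChar (((n * k : ℕ) : ℤ) : ZMod l) : ℂ)
      = Complex.exp (2 * Real.pi * Complex.I * ((n * k : ℕ) : ℤ) / l) := ZMod.stdAddChar_coe _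
  have h2 : (ZMod.stdAddChar (((k : ℕ) : ℤ) : ZMod m) : ℂ)
      = Complex.exp (2 * Real.pi * Complex.I * ((k : ℕ) : ℤ) / m) := ZMod.stdAddChar_coe _
  have hlm : (l : ℂ) = m * n := by rw [hl]; push_cast; ring
  have hl0 : (l : ℂ) ≠ 0 := by exact_mod_cast NeZero.ne l
  have hm0 : (m : ℂ) ≠ 0 := by exact_mod_cast NeZero.ne m
  have hn0 : (n : ℂ) ≠ 0 := by
    intro h
    rw [hlm, h, mul_zero] at hl0
    exact hl0 rfl
  have e1 : (((n * k : ℕ) : ℤ) : ZMod l) = ((n * k : ℕ) : ZMod l) := by push_cast; ring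
  have e2 : (((k : ℕ) : ℤ) : ZMod m) = ((k : ℕ) : ZMod m) := by push_cast; ring
  rw [← e1, ← e2, h1, h2, hlm]
  congr 1
  push_cast
  field_simp

theorem mu_mul (m n l T x : ℕ) [NeZero m] [NeZero l] (hl : l = m * n) :
    mu l T ((n * x : ℕ) : ZMod l) = mu m T ((x : ℕ) : ZMod m) := by
  unfold mu
  congr 1
  refine Finset.sum_congr rfl fun i _ => ?_
  have h1 : ((n * x : ℕ) : ZMod l) * 2 ^ i = ((n * (x * 2 ^ i) : ℕ) : ZMod l) := by
    push_cast; ring
  have h2 : ((x : ℕ) : ZMod m) * 2 ^ i = ((x * 2 ^ i : ℕ) : ZMod m) := by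
    push_cast; ring
  rw [h1, h2]
  exact addChar_mul m n (x * 2 ^ i) l hl

theorem hMC : StMC := by
  intro p q T x _ _
  exact ⟨mu_mul p q (p * q) T x rfl, mu_mul q p (p * q) T x (mul_comm p q)⟩

end Pool.Agent.Helper98.SPR
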