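import Pool.Agent.Helper36.SPR.St5

/-!
# BTI: dyadic summation of Brun-Titchmarsh
-/

set_option autoImplicit false

namespace Pool.Agent.Helper98.SPR

open Finset
open Pool.Agent.Helper36.SPR

/-- one dyadic block -/
lemma bti_block (C₀ : ℝ) (z l j : ℕ) (hz : 2 ≤ z) (hl : l.Prime)
    (hcard : (((Ioc z (2 * z)).filter (fun p => p.Prime ∧ p ≡ 1 [MOD l ^ j])).card : ℝ)
      ≤ C₀ * z / ((l : ℝ) ^ j * Real.log z)) :
    ∑ p ∈ (Ioc z (2 * z)).filter (fun p => p.Prime ∧ p ≡ 1 [MOD l ^ j]), (1 : ℝ) / p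
      ≤ C₀ / ((l : ℝ) ^ j) * (1 / Real.log z) := by
  have hz0 : (0 : ℝ) < z := by
    have : 0 < z := by omega
    exact_mod_cast this
  have h1 : ∑ p ∈ (Ioc z (2 * z)).filter (fun p => p.Prime ∧ p ≡ 1 [MOD l ^ j]), (1 : ℝ) / p
      ≤ ((Ioc z (2 * z)).filter (fun p => p.Prime ∧ p ≡ 1 [MOD l ^ j])).card • ((1 : ℝ) / z) := by
    apply sum_le_card_nsmul
    intro p hp
    rw [mem_filter, mem_Ioc] at hp
    apply one_div_le_one_div_of_le hz0
    exact_mod_cast hp.1.1.le
  rw [nsmul_eq_mul] at h1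
  have hD : (0 : ℝ) < (l : ℝ) ^ j := by
    have : (0 : ℝ) < l := by exact_mod_cast hl.pos
    positivity
  have hlog : 0 < Real.log z := by
    apply Real.log_pos
    have : 1 < z := by omega
    exact_mod_cast this
  calc _ ≤ _ := h1
    _ ≤ (C₀ * z / ((l : ℝ) ^ j * Real.log z)) * ((1 : ℝ) / z) :=
        mul_le_mul_of_nonneg_right hcard (by positivity)
    _ = C₀ / ((l : ℝ) ^ j) * (1 / Real.log z) := by
        field_simp

theorem hBTI (hBTD : StBTD) : StBTI := by
  obtain ⟨C₀, hC₀, hB⟩ := hBTD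
  have hl2 : 0 < Real.log 2 := Real.log_pos (by norm_num)
  refine ⟨C₀ / Real.log 2, by positivity, ?_⟩
  intro x A l j hx hA hl hj hD
  have hx0 : (0 : ℝ) < x := by
    have : 0 < x := by omega
    exact_mod_cast this
  have hDpos : (0 : ℝ) < (l : ℝ) ^ j := by
    have : (0 : ℝ) < l := by exact_mod_cast hl.pos
    positivity
  have hlogx : Real.log 2 ≤ Real.log x := by
    apply Real.log_le_log (by norm_num)
    exact_mod_cast hx
  have hlogx0 : 0 < Real.log x := by linarith
  set K : ℝ := C₀ / ((l : ℝ) ^ j) with hK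
  have hK0 : 0 < K := by positivity
  -- the dyadic summation
  have key : ∀ I : ℕ, ∑ p ∈ (Ioc x (2 ^ (I + 1) * x)).filter
      (fun p => p.Prime ∧ p ≡ 1 [MOD l ^ j]), (1 : ℝ) / p
      ≤ K * (1 / Real.log x + (1 / Real.log 2) *
        (Real.log (I * Real.log 2 + Real.log x) - Real.log (Real.log x))) := by
    intro I
    induction I with
    | zero =>
      have h1 := bti_block C₀ x l j hx hl (hB x l j hx hl hj hD)
      simpa using h1
    | succ I ih =>
      have hz : 2 ≤ 2 ^ (I + 1) * x := by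
        have : 1 ≤ 2 ^ (I + 1) := Nat.one_le_two_pow
        nlinarith
      have hzx : x ≤ 2 ^ (I + 1) * x := by
        have : 1 ≤ 2 ^ (I + 1) := Nat.one_le_two_pow
        nlinarith
      have h1 := bti_block C₀ (2 ^ (I + 1) * x) l j hz hl (hB _ l j hz hl hj (hD.trans hzx))
      have h2 : 2 * (2 ^ (I + 1) * x) = 2 ^ (I + 1 + 1) * x := by ring
      rw [h2] at h1
      have hsplit : (Ioc x (2 ^ (I + 1 + 1) * x)).filter
          (fun p => p.Prime ∧ p ≡ 1 [MOD l ^ j])
          ⊆ (Ioc x (2 ^ (I + 1) * x)).filter (fun p => p.Prime ∧ p ≡ 1 [MOD l ^ j]) ∪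
            (Ioc (2 ^ (I + 1) * x) (2 ^ (I + 1 + 1) * x)).filter
              (fun p => p.Prime ∧ p ≡ 1 [MOD l ^ j]) := by
        intro p hp
        rw [mem_filter, mem_Ioc] at hp
        rw [mem_union, mem_filter, mem_filter, mem_Ioc, mem_Ioc]
        rcases le_or_gt p (2 ^ (I + 1) * x) with h | h
        · exact Or.inl ⟨⟨hp.1.1, h⟩, hp.2⟩
        · exact Or.inr ⟨⟨h, hp.1.2⟩, hp.2⟩
      have h3 : ∑ p ∈ (Ioc x (2 ^ (I + 1 + 1) * x)).filter
          (fun p => p.Prime ∧ p ≡ 1 [MOD l ^ j]), (1 : ℝ) / p ≤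
          ∑ p ∈ (Ioc x (2 ^ (I + 1) * x)).filter
            (fun p => p.Prime ∧ p ≡ 1 [MOD l ^ j]), (1 : ℝ) / p +
          ∑ p ∈ (Ioc (2 ^ (I + 1) * x) (2 ^ (I + 1 + 1) * x)).filter
            (fun p => p.Prime ∧ p ≡ 1 [MOD l ^ j]), (1 : ℝ) / p := by
        refine (sum_le_sum_of_subset_of_nonneg hsplit ?_).trans ?_
        · intro i _ _
          positivity
        · rw [← sum_union_inter (s₁ := (Ioc x (2 ^ (I + 1) * x)).filter
              (fun p => p.Prime ∧ p ≡ 1 [MOD l ^ j]))]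
          have : 0 ≤ ∑ p ∈ (Ioc x (2 ^ (I + 1) * x)).filter
              (fun p => p.Prime ∧ p ≡ 1 [MOD l ^ j]) ∩
              (Ioc (2 ^ (I + 1) * x) (2 ^ (I + 1 + 1) * x)).filter
              (fun p => p.Prime ∧ p ≡ 1 [MOD l ^ j]), (1 : ℝ) / p := by positivity
          linarith
      have hu : Real.log ((2 ^ (I + 1) * x : ℕ) : ℝ) =
          ((I + 1 : ℕ) : ℝ) * Real.log 2 + Real.log x := by
        push_cast
        rw [Real.log_mul (by positivity) hx0.ne', Real.log_pow]
        push_cast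
        ring
      rw [hu] at h1
      set u₀ : ℝ := (I : ℝ) * Real.log 2 + Real.log x with hu₀
      set u₁ : ℝ := ((I + 1 : ℕ) : ℝ) * Real.log 2 + Real.log x with hu₁
      have hu₀p : 0 < u₀ := by positivity
      have hu01 : u₁ = u₀ + Real.log 2 := by
        rw [hu₁, hu₀]
        push_cast
        ring
      have hu₁p : 0 < u₁ := by rw [hu01]; positivity
      have h4 : 1 / u₁ ≤ (1 / Real.log 2) * (Real.log u₁ - Real.log u₀) := by
        have h5 := Real.one_sub_inv_le_log_of_pos (show 0 < u₁ / u₀ by positivity)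
        rw [Real.log_div hu₁p.ne' hu₀p.ne'] at h5
        have h6 : 1 - (u₁ / u₀)⁻¹ = Real.log 2 / u₁ := by
          rw [inv_div, hu01]
          have : u₀ + Real.log 2 ≠ 0 := by positivity
          field_simp
          ring
        rw [h6] at h5
        calc 1 / u₁ = (1 / Real.log 2) * (Real.log 2 / u₁) := by
              field_simp
          _ ≤ _ := mul_le_mul_of_nonneg_left h5 (by positivity)
      have h7 : K * (1 / u₁) ≤ K * ((1 / Real.log 2) * (Real.log u₁ - Real.log u₀)) :=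
        mul_le_mul_of_nonneg_left h4 hK0.le
      calc _ ≤ _ := h3
        _ ≤ K * (1 / Real.log x + (1 / Real.log 2) * (Real.log u₀ - Real.log (Real.log x))) +
            K * (1 / u₁) := add_le_add ih h1
        _ ≤ K * (1 / Real.log x + (1 / Real.log 2) * (Real.log u₀ - Real.log (Real.log x))) +
            K * ((1 / Real.log 2) * (Real.log u₁ - Real.log u₀)) := by linarith
        _ = _ := by ring
  have hlogA : 0 ≤ Real.log A := Real.log_nonneg (by exact_mod_cast hA)
  have hrhs : C₀ / Real.log 2 * (1 + Real.log A) / (l : ℝ) ^ j =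
      K * (1 / Real.log 2 + (1 / Real.log 2) * Real.log A) := by
    rw [hK]
    field_simp
  rw [hrhs]
  rcases Nat.eq_or_lt_of_le hA with hA1 | hA2
  · rw [← hA1, pow_one, Ioc_self, filter_empty, sum_empty]
    simp only [Nat.cast_one, Real.log_one, mul_zero, add_zero]
    positivity
  · have hpow : 2 ≤ x ^ (A - 1) := by
      calc 2 ≤ x := hx
        _ = x ^ 1 := (pow_one x).symm
        _ ≤ x ^ (A - 1) := Nat.pow_le_pow_right (by omega) (by omega)
    obtain ⟨I, hI⟩ : ∃ I : ℕ, Nat.clog 2 (x ^ (A - 1)) = I + 1 := by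
      have : 0 < Nat.clog 2 (x ^ (A - 1)) := Nat.clog_pos (by norm_num) hpow
      exact ⟨Nat.clog 2 (x ^ (A - 1)) - 1, by omega⟩
    have hI1 : x ^ (A - 1) ≤ 2 ^ (I + 1) := by
      rw [← hI]
      exact Nat.le_pow_clog (by norm_num) _
    have hI2 : 2 ^ I < x ^ (A - 1) := by
      have h1 : I < Nat.clog 2 (x ^ (A - 1)) := by omega
      exact (Nat.lt_clog_iff_pow_lt (by norm_num)).mp h1
    have hxA : x ^ A ≤ 2 ^ (I + 1) * x := by
      calc x ^ A = x ^ (A - 1) * x := by
            rw [← pow_succ]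
            congr 1
            omega
        _ ≤ _ := Nat.mul_le_mul_right x hI1
    have hu : (I : ℝ) * Real.log 2 + Real.log x ≤ A * Real.log x := by
      have h1 : (2 : ℝ) ^ I ≤ (x : ℝ) ^ (A - 1) := by exact_mod_cast hI2.le
      have h2 := Real.log_le_log (by positivity) h1
      rw [Real.log_pow, Real.log_pow] at h2
      have h3 : ((A - 1 : ℕ) : ℝ) = A - 1 := by
        rw [Nat.cast_sub hA]
        simp
      rw [h3] at h2
      linarith
    have hsub : ∑ p ∈ (Ioc x (x ^ A)).filter (fun p => p.Prime ∧ p ≡ 1 [MOD l ^ j]), (1 : ℝ) / p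
        ≤ ∑ p ∈ (Ioc x (2 ^ (I + 1) * x)).filter
          (fun p => p.Prime ∧ p ≡ 1 [MOD l ^ j]), (1 : ℝ) / p := by
      apply sum_le_sum_of_subset_of_nonneg
      · exact filter_subset_filter _ (Ioc_subset_Ioc_right hxA)
      · intro i _ _
        positivity
    refine (hsub.trans (key I)).trans ?_
    apply mul_le_mul_of_nonneg_left _ hK0.le
    have h1 : 1 / Real.log x ≤ 1 / Real.log 2 := one_div_le_one_div_of_le hl2 hlogx
    have h2 : Real.log ((I : ℝ) * Real.log 2 + Real.log x) - Real.log (Real.log x) ≤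
        Real.log A := by
      have h3 : 0 < (I : ℝ) * Real.log 2 + Real.log x := by positivity
      have h4 := Real.log_le_log h3 hu
      have hA0 : (0 : ℝ) < A := by exact_mod_cast (by omega : 0 < A)
      rw [Real.log_mul hA0.ne' hlogx0.ne'] at h4
      linarith
    have h3 : (1 / Real.log 2) * (Real.log ((I : ℝ) * Real.log 2 + Real.log x) -
        Real.log (Real.log x)) ≤ (1 / Real.log 2) * Real.log A :=
      mul_le_mul_of_nonneg_left h2 (by positivity)
    linarith

end Pool.Agent.Helper98.SPR
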